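import Pool.Agent.Helper22.LIL.Defs

/-!
# LIL-LT2: mean square of the Hardy sum
-/

open MeasureTheory Filter Set
open scoped Real Topology

namespace Pool.Agent.Helper22.LIL

open Pool.Agent.Helper22.GC Pool.Agent.Helper53.OM

noncomputable section

private lemma lt2_rho_le : ∃ C : ℝ, 0 < C ∧ ∀ n : ℕ, 0 < n → rho n ≤ C := by
  obtain ⟨C, hC, h⟩ := gr_le (ε := 3 / 4) (by norm_num)
  refine ⟨C, hC, fun n hn => ?_⟩
  have hn0 : (0 : ℝ) < n := by exact_mod_cast hn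
  unfold rho
  calc (gr n : ℝ) * (n : ℝ) ^ (-(3 / 4) : ℝ) ≤ (C * (n : ℝ) ^ (3 / 4 : ℝ)) * (n : ℝ) ^ (-(3 / 4) : ℝ) := by
        gcongr
        exact h n hn
    _ = C := by
        rw [mul_assoc, ← Real.rpow_add hn0]
        norm_num

private lemma lt2_bq_nonneg (N q : ℕ) : 0 ≤ bq N q :=
  Finset.sum_nonneg fun _ _ => rho_nonneg _

private lemma lt2_sum_sq {Q : Finset ℕ} {f : ℕ → ℝ} (hf : ∀ q ∈ Q, 0 ≤ f q) :
    ∑ q ∈ Q, f q ^ 2 ≤ (∑ q ∈ Q, f q) ^ 2 := by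
  classical
  rw [sq, Finset.sum_mul_sum]
  refine Finset.sum_le_sum fun q hq => ?_
  rw [sq]
  exact Finset.single_le_sum (f := fun j => f q * f j)
    (fun j hj => mul_nonneg (hf q hq) (hf j hj)) hq

/-- LT2, from MOM, SP, C1, U1, U2. -/
theorem TK_sq_of
    (moment : ∀ {Q : Finset ℕ} {N m : ℕ}, Q ⊆ sqf N → 1 ≤ m → ∀ {a b lam μ : ℝ},
      a ≤ b → 0 < lam → 0 < μ →
      ∫ α in a..b, SQ Q N (α * lam) ^ (2 * m) ≤
        (b - a) * ((2 * m).factorial / μ ^ (2 * m) * Real.exp (μ ^ 2 * ∑ q ∈ Q, bq N q ^ 2))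
        + (∑ q ∈ Q, bq N q) ^ (2 * m) * (2 * m * √N + 1) ^ (2 ^ (2 * m)) / lam)
    (TK_eq_SQ : ∀ (N : ℕ) (x : ℝ), TK N x = SQ (sqf N) N x)
    (bq_le : ∃ C : ℝ, 0 < C ∧ ∀ N q : ℕ, 0 < q → bq N q ≤ C * rho q)
    (sum_big : ∃ C : ℝ, 0 < C ∧ ∀ (V : ℝ) (Q : Finset ℕ), 0 < V →
      (∀ q ∈ Q, 0 < q ∧ Squarefree q ∧ V ^ (-(3 / 4) : ℝ) ≤ rho q) →
      ∑ q ∈ Q, rho q ≤ C * V ^ (1 / 4 : ℝ) * gV V)
    (sum_small : ∃ C : ℝ, 0 < C ∧ ∀ (V : ℝ) (Q : Finset ℕ), 0 < V →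
      (∀ q ∈ Q, 0 < q ∧ Squarefree q ∧ rho q < V ^ (-(3 / 4) : ℝ)) →
      ∑ q ∈ Q, rho q ^ 2 ≤ C * V ^ (-(1 / 2) : ℝ) * gV V) :
    ∃ C : ℝ, 0 < C ∧ ∀ (N : ℕ) (a b lam : ℝ), a ≤ b → 0 < lam →
    ∫ α in a..b, TK N (α * lam) ^ 2 ≤ C * (b - a) + C * ((N : ℝ) + 1) ^ 8 / lam := by
  classical
  obtain ⟨C₁, hC₁, h1⟩ := bq_le
  obtain ⟨C₂, hC₂, h2⟩ := sum_big
  obtain ⟨C₃, hC₃, h3⟩ := sum_small
  obtain ⟨C₀, hC₀, h0⟩ := lt2_rho_le
  set A : ℝ := C₁ ^ 2 * ((C₂ * gV 1) ^ 2 + C₃ * gV 1) with hA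
  have key : ∀ N : ℕ, ∑ q ∈ sqf N, bq N q ^ 2 ≤ A := by
    intro N
    have hm : ∀ q ∈ sqf N, 0 < q ∧ Squarefree q := by
      intro q hq
      obtain ⟨hq1, hq2⟩ := Finset.mem_filter.1 hq
      exact ⟨(Finset.mem_Icc.1 hq1).1, hq2⟩
    have e1 : ∑ q ∈ sqf N, bq N q ^ 2 ≤ ∑ q ∈ sqf N, C₁ ^ 2 * rho q ^ 2 := by
      refine Finset.sum_le_sum fun q hq => ?_
      rw [← mul_pow]
      exact pow_le_pow_left₀ (lt2_bq_nonneg N q) (h1 N q (hm q hq).1) 2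
    have e2 : ∑ q ∈ (sqf N).filter (fun q => (1 : ℝ) ^ (-(3 / 4) : ℝ) ≤ rho q), rho q
        ≤ C₂ * gV 1 := by
      have := h2 1 ((sqf N).filter (fun q => (1 : ℝ) ^ (-(3 / 4) : ℝ) ≤ rho q)) one_pos
        (fun q hq => by
          obtain ⟨hq1, hq2⟩ := Finset.mem_filter.1 hq
          exact ⟨(hm q hq1).1, (hm q hq1).2, hq2⟩)
      simpa using this
    have e3 : ∑ q ∈ (sqf N).filter (fun q => ¬ (1 : ℝ) ^ (-(3 / 4) : ℝ) ≤ rho q), rho q ^ 2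
        ≤ C₃ * gV 1 := by
      have := h3 1 ((sqf N).filter (fun q => ¬ (1 : ℝ) ^ (-(3 / 4) : ℝ) ≤ rho q)) one_pos
        (fun q hq => by
          obtain ⟨hq1, hq2⟩ := Finset.mem_filter.1 hq
          exact ⟨(hm q hq1).1, (hm q hq1).2, not_le.1 hq2⟩)
      simpa using this
    have e4 : ∑ q ∈ (sqf N).filter (fun q => (1 : ℝ) ^ (-(3 / 4) : ℝ) ≤ rho q), rho q ^ 2
        ≤ (C₂ * gV 1) ^ 2 := by
      refine (lt2_sum_sq fun q _ => rho_nonneg q).trans ?_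
      exact pow_le_pow_left₀ (Finset.sum_nonneg fun q _ => rho_nonneg q) e2 2
    calc ∑ q ∈ sqf N, bq N q ^ 2 ≤ C₁ ^ 2 * ∑ q ∈ sqf N, rho q ^ 2 := by
          rw [Finset.mul_sum]; exact e1
      _ ≤ A := by
          rw [hA]
          refine mul_le_mul_of_nonneg_left ?_ (by positivity)
          rw [← Finset.sum_filter_add_sum_filter_not (sqf N)
            (fun q => (1 : ℝ) ^ (-(3 / 4) : ℝ) ≤ rho q)]
          exact add_le_add e4 e3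
  have key2 : ∀ N : ℕ, ∑ q ∈ sqf N, bq N q ≤ C₁ * C₀ * N := by
    intro N
    have hm : ∀ q ∈ sqf N, 0 < q := by
      intro q hq
      exact (Finset.mem_Icc.1 (Finset.mem_filter.1 hq).1).1
    have hcard : ((sqf N).card : ℝ) ≤ N := by
      have : (sqf N).card ≤ (Finset.Icc 1 N).card := Finset.card_filter_le _ _
      rw [Nat.card_Icc] at this
      exact_mod_cast (by omega : (sqf N).card ≤ N)
    calc ∑ q ∈ sqf N, bq N q ≤ ∑ q ∈ sqf N, C₁ * C₀ := by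
          refine Finset.sum_le_sum fun q hq => (h1 N q (hm q hq)).trans ?_
          exact mul_le_mul_of_nonneg_left (h0 q (hm q hq)) hC₁.le
      _ = (sqf N).card * (C₁ * C₀) := by rw [Finset.sum_const, nsmul_eq_mul]
      _ ≤ N * (C₁ * C₀) := mul_le_mul_of_nonneg_right hcard (by positivity)
      _ = C₁ * C₀ * N := by ring
  set B : ℝ := 2 * Real.exp A + (C₁ * C₀) ^ 2 * 81 with hB
  refine ⟨B, by positivity, ?_⟩
  intro N a b lam hab hlam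
  have hmom := moment (Q := sqf N) (N := N) (m := 1) (Finset.Subset.refl _) le_rfl hab hlam
    (one_pos : (0 : ℝ) < 1)
  have eq1 : (fun α : ℝ => TK N (α * lam) ^ 2) = fun α => SQ (sqf N) N (α * lam) ^ (2 * 1) := by
    funext α
    rw [TK_eq_SQ]
  rw [eq1]
  refine hmom.trans ?_
  have hba : 0 ≤ b - a := sub_nonneg.2 hab
  have hN0 : (0 : ℝ) ≤ N := Nat.cast_nonneg N
  have f1 : (b - a) * (((2 * 1).factorial : ℝ) / (1 : ℝ) ^ (2 * 1)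
      * Real.exp ((1 : ℝ) ^ 2 * ∑ q ∈ sqf N, bq N q ^ 2)) ≤ B * (b - a) := by
    have : ((2 * 1).factorial : ℝ) / (1 : ℝ) ^ (2 * 1)
        * Real.exp ((1 : ℝ) ^ 2 * ∑ q ∈ sqf N, bq N q ^ 2) ≤ B := by
      have hf : ((2 * 1).factorial : ℝ) = 2 := by norm_num [Nat.factorial]
      rw [hf]
      simp only [one_pow, div_one, one_mul]
      have := Real.exp_le_exp.2 (key N)
      have h5 : 0 ≤ (C₁ * C₀) ^ 2 * 81 := by positivity
      linarith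
    calc (b - a) * _ ≤ (b - a) * B := mul_le_mul_of_nonneg_left this hba
      _ = B * (b - a) := mul_comm _ _
  have hs : √(N : ℝ) ≤ N + 1 := by
    rw [Real.sqrt_le_left (by linarith)]
    nlinarith
  have f2 : (∑ q ∈ sqf N, bq N q) ^ (2 * 1) * (2 * ((1 : ℕ) : ℝ) * √N + 1) ^ (2 ^ (2 * 1)) / lam
      ≤ B * ((N : ℝ) + 1) ^ 8 / lam := by
    refine div_le_div_of_nonneg_right ?_ hlam.le
    have g1 : (∑ q ∈ sqf N, bq N q) ^ (2 * 1) ≤ (C₁ * C₀) ^ 2 * ((N : ℝ) + 1) ^ 2 := by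
      rw [← mul_pow]
      refine pow_le_pow_left₀ (Finset.sum_nonneg fun q _ => lt2_bq_nonneg N q) ?_ 2
      refine (key2 N).trans ?_
      refine mul_le_mul_of_nonneg_left (by linarith) (by positivity)
    have g0 : 2 * ((1 : ℕ) : ℝ) * √N + 1 ≤ 2 * ((N : ℝ) + 1) + (N + 1) := by
      push_cast
      nlinarith
    have g2 : (2 * ((1 : ℕ) : ℝ) * √N + 1) ^ (2 ^ (2 * 1)) ≤ 81 * ((N : ℝ) + 1) ^ 4 := by
      have : (2 * ((1 : ℕ) : ℝ) * √N + 1) ^ (2 ^ (2 * 1)) ≤ (3 * ((N : ℝ) + 1)) ^ 4 := by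
        refine pow_le_pow_left₀ (by positivity) ?_ 4
        linarith
      refine this.trans (le_of_eq ?_)
      ring
    have hN1 : (1 : ℝ) ≤ (N : ℝ) + 1 := by linarith
    have g3 : ((N : ℝ) + 1) ^ 6 ≤ ((N : ℝ) + 1) ^ 8 := pow_le_pow_right₀ hN1 (by norm_num)
    calc (∑ q ∈ sqf N, bq N q) ^ (2 * 1) * (2 * ((1 : ℕ) : ℝ) * √N + 1) ^ (2 ^ (2 * 1))
        ≤ ((C₁ * C₀) ^ 2 * ((N : ℝ) + 1) ^ 2) * (81 * ((N : ℝ) + 1) ^ 4) :=
          mul_le_mul g1 g2 (by positivity) (by positivity)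
      _ = ((C₁ * C₀) ^ 2 * 81) * ((N : ℝ) + 1) ^ 6 := by ring
      _ ≤ ((C₁ * C₀) ^ 2 * 81) * ((N : ℝ) + 1) ^ 8 :=
          mul_le_mul_of_nonneg_left g3 (by positivity)
      _ ≤ B * ((N : ℝ) + 1) ^ 8 := by
          refine mul_le_mul_of_nonneg_right ?_ (by positivity)
          rw [hB]
          have := Real.exp_pos A
          linarith
  exact add_le_add f1 f2

end

end Pool.Agent.Helper22.LIL
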